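import Mathlib
import Pool.Agent.Y877.Comb

/-!
# Homothetic copies of a grid in dense subsets of the plane (from the density Hales-Jewett theorem)
-/

set_option autoImplicit false

namespace Q157.GD

open Finset Pool.Agent.H602R3.DHJ Pool.Agent.Y877

theorem grid (R Q : ℕ) (hR : 1 ≤ R) (hQ : 1 ≤ Q) (ε : ℝ) (hε : 0 < ε) :
    ∃ C : ℕ, 1 ≤ C ∧ ∀ H L : ℕ, C ≤ H → C ≤ L → ∀ E : Finset (ℕ × ℕ), E ⊆ range H ×ˢ range L →
      ε * (H * L) ≤ (E.card : ℝ) →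
      ∃ s τ d : ℕ, 1 ≤ d ∧ d ≤ C ∧ Q ∣ d ∧ ∀ i < R, ∀ j < R, (s + d * i, τ + d * j) ∈ E := by
  classical
  have : Nonempty (Fin R × Fin R) := ⟨(⟨0, hR⟩, ⟨0, hR⟩)⟩
  obtain ⟨N, hN⟩ := dhjT (Fin R × Fin R) (ε / 2 / 8) (by positivity)
  refine ⟨2 * (N * (Q * R)) + 1, by omega, ?_⟩
  intro H L hH hL E hE hEc
  obtain ⟨M, hM⟩ : ∃ M, M = 2 * H := ⟨_, rfl⟩
  have hM1 : 1 ≤ M := by omega
  obtain ⟨e, he⟩ : ∃ e : ℕ × ℕ → ℕ, e = fun x => 1 + x.1 + M * x.2 := ⟨_, rfl⟩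
  have hdec : ∀ x y : ℕ × ℕ, x.1 < M → y.1 < M → e x = e y → x = y := by
    intro x y hx hy h
    rw [he] at h
    have h1 : x.1 + M * x.2 = y.1 + M * y.2 := by
      have : 1 + x.1 + M * x.2 = 1 + y.1 + M * y.2 := h
      omega
    have h2 : x.1 = y.1 := by
      have h3 := congrArg (fun z => z % M) h1
      simp only [Nat.add_mul_mod_self_left] at h3
      rwa [Nat.mod_eq_of_lt hx, Nat.mod_eq_of_lt hy] at h3
    have h4 : x.2 = y.2 := by
      rw [h2] at h1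
      exact Nat.eq_of_mul_eq_mul_left hM1 (by omega)
    exact Prod.ext h2 h4
  have hEm : ∀ x ∈ E, x.1 < H ∧ x.2 < L := by
    intro x hx
    have := mem_product.1 (hE hx)
    exact ⟨mem_range.1 this.1, mem_range.1 this.2⟩
  obtain ⟨B, hB⟩ : ∃ B, B = E.image e := ⟨_, rfl⟩
  have hBc : B.card = E.card := by
    rw [hB]
    apply card_image_of_injOn
    intro x hx y hy h
    exact hdec x y (by have := (hEm x hx).1; omega) (by have := (hEm y hy).1; omega) h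
  have hBsub : B ⊆ Ioc 0 (0 + M * L) := by
    intro b hb
    rw [hB] at hb
    obtain ⟨x, hx, rfl⟩ := mem_image.1 hb
    obtain ⟨h1, h2⟩ := hEm x hx
    have h3 : M * x.2 + M ≤ M * L := by
      have : M * (x.2 + 1) ≤ M * L := Nat.mul_le_mul_left _ h2
      linarith
    rw [mem_Ioc, he]
    show 0 < 1 + x.1 + M * x.2 ∧ 1 + x.1 + M * x.2 ≤ 0 + M * L
    constructor <;> omega
  obtain ⟨g, hg⟩ : ∃ g : Fin R × Fin R → ℤ, g = fun x => (Q : ℤ) * ((x.1 : ℕ) + M * (x.2 : ℕ)) :=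
    ⟨_, rfl⟩
  have hg0 : ∀ x, 0 ≤ g x := by intro x; rw [hg]; positivity
  have hgle : ∀ x, g x ≤ Q * (R * (2 * M)) := by
    intro x
    rw [hg]
    have h1 : ((x.1 : ℕ) : ℤ) ≤ R := by exact_mod_cast x.1.2.le
    have h2 : ((x.2 : ℕ) : ℤ) ≤ R := by exact_mod_cast x.2.2.le
    have h3 : (1 : ℤ) ≤ M := by exact_mod_cast hM1
    have h4 : ((x.1 : ℕ) : ℤ) + M * (x.2 : ℕ) ≤ R * (2 * M) := by
      have h5 : (M : ℤ) * (x.2 : ℕ) ≤ M * R := mul_le_mul_of_nonneg_left h2 (by linarith)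
      have h6 : (R : ℤ) ≤ R * M := le_mul_of_one_le_right (Nat.cast_nonneg _) h3
      nlinarith
    exact mul_le_mul_of_nonneg_left h4 (Nat.cast_nonneg _)
  have hv : ∀ u : Fin N → Fin R × Fin R, |∑ k, g (u k)| ≤ ((M * L : ℕ) : ℤ) := by
    intro u
    rw [abs_of_nonneg (sum_nonneg fun k _ => hg0 _)]
    calc ∑ k, g (u k) ≤ ∑ _k : Fin N, (Q : ℤ) * (R * (2 * M)) := sum_le_sum fun k _ => hgle _
      _ = N * (Q * (R * (2 * M))) := by rw [sum_const, card_univ, Fintype.card_fin, nsmul_eq_mul]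
      _ = M * (2 * (N * (Q * R)) : ℕ) := by push_cast; ring
      _ ≤ ((M * L : ℕ) : ℤ) := by
          push_cast
          have h1 : (((2 * (N * (Q * R)) : ℕ)) : ℤ) ≤ L := by exact_mod_cast (by omega)
          push_cast at h1
          exact mul_le_mul_of_nonneg_left h1 (Nat.cast_nonneg _)
  have hML : 1 ≤ M * L := Nat.mul_pos hM1 (by omega)
  have hcnt := count_z (α := Fin R × Fin R) (N := N) (ε / 2) hN (M * L) hML 0
    (fun u => ∑ k, g (u k)) hv B hBsub (by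
      rw [hBc, hM]
      push_cast
      calc ε / 2 * (2 * (H : ℝ) * L) = ε * (H * L) := by ring
        _ ≤ _ := hEc) (by positivity)
  have hpos : 0 < (((Icc (((0 : ℕ) : ℤ) - (M * L : ℕ)) ((0 : ℕ) + 2 * (M * L : ℕ))).filter
      (fun z : ℤ => ∃ V : Fin N → (Fin R × Fin R) ⊕ Unit, Pr V ∧ ∀ a, ∃ k ∈ B,
        z + ∑ i, g (ap V (fun _ => a) i) = (k : ℤ))).card : ℝ) := by
    refine lt_of_lt_of_le ?_ hcnt
    have : (0 : ℝ) < ((M * L : ℕ) : ℝ) := by exact_mod_cast hML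
    positivity
  have hne := card_pos.1 (Nat.cast_pos.1 hpos)
  obtain ⟨z, hz⟩ := hne
  obtain ⟨V, hV, hVB⟩ := (mem_filter.1 hz).2
  obtain ⟨s0, hs0⟩ := line_sum V g
  have hact := act_pos V hV
  have hactle := act_le V
  -- the base point
  obtain ⟨k0, hk0, hzk⟩ := hVB (⟨0, hR⟩, ⟨0, hR⟩)
  rw [hB] at hk0
  obtain ⟨x0, hx0, hxk⟩ := mem_image.1 hk0
  obtain ⟨hx1, hx2⟩ := hEm x0 hx0
  refine ⟨x0.1, x0.2, act V * Q, Nat.mul_pos hact hQ, ?_, Dvd.intro_left _ rfl, ?_⟩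
  · have h1 : act V * Q ≤ N * (Q * R) := by
      calc act V * Q ≤ N * Q := Nat.mul_le_mul_right _ hactle
        _ ≤ N * (Q * R) := Nat.mul_le_mul_left _ (Nat.le_mul_of_pos_right _ hR)
    omega
  intro i hi j hj
  obtain ⟨k, hk, hzk'⟩ := hVB (⟨i, hi⟩, ⟨j, hj⟩)
  rw [hB] at hk
  obtain ⟨x, hx, hxk'⟩ := mem_image.1 hk
  obtain ⟨hy1, hy2⟩ := hEm x hx
  rw [hs0] at hzk hzk'
  have e1 : g (⟨0, hR⟩, ⟨0, hR⟩) = 0 := by rw [hg]; simp
  have e2 : g (⟨i, hi⟩, ⟨j, hj⟩) = Q * (i + M * j) := by rw [hg]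
  rw [e1, mul_zero, add_zero] at hzk
  rw [e2] at hzk'
  have h1 : (k : ℤ) = k0 + act V * (Q * (i + M * j)) := by rw [← hzk', ← hzk]; ring
  have h2 : e x = e (x0.1 + act V * Q * i, x0.2 + act V * Q * j) := by
    have h3 : ((e x : ℕ) : ℤ) = ((e (x0.1 + act V * Q * i, x0.2 + act V * Q * j) : ℕ) : ℤ) := by
      rw [hxk', h1, ← hxk, he]
      push_cast
      ring
    exact_mod_cast h3
  have h4 : act V * Q * i ≤ N * (Q * R) := by
    calc act V * Q * i ≤ N * Q * R :=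
          Nat.mul_le_mul (Nat.mul_le_mul_right _ hactle) hi.le
      _ = N * (Q * R) := by ring
  have h5 := hdec _ _ (by omega) (by show x0.1 + act V * Q * i < M; omega) h2
  rw [← h5]
  exact hx

end Q157.GD
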