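import Mathlib

/-!
# Differences or sums of two primes: the configuration of four classes
-/

set_option autoImplicit false

namespace Q157.GD

open Finset Filter Topology

/-- the number of the primes `p ≤ X` for which `p + h` is a prime -/
noncomputable def diffs (X h : ℕ) : ℕ := {p : ℕ | p ≤ X ∧ p.Prime ∧ (p + h).Prime}.ncard

/-- the number of the primes `p ≤ X` for which `m = p + q` with a prime `q` -/
noncomputable def sums (X m : ℕ) : ℕ :=
  {p : ℕ | p ≤ X ∧ p.Prime ∧ ∃ q : ℕ, q.Prime ∧ p + q = m}.ncard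

/-- `2 q t` is not a difference and `a + 2 q s`, `a + 2 q s + 2 q t`, `a + 2 q s - 2 q t` are not sums
of two primes in many ways -/
def Bad (X : ℕ) (η : ℝ) (q a s t : ℕ) : Prop :=
  (diffs X (2 * q * t) : ℝ) < (X : ℝ) ^ (1 - η) ∧ (sums X (a + 2 * q * s) : ℝ) < (X : ℝ) ^ (1 - η) ∧
    (sums X (a + 2 * q * s + 2 * q * t) : ℝ) < (X : ℝ) ^ (1 - η) ∧
    (sums X (a + 2 * q * s - 2 * q * t) : ℝ) < (X : ℝ) ^ (1 - η)

/-- a value for which four residue classes modulo `p` are avoided -/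
theorem four_classes (p : ℕ) (hp : p.Prime) (q a s t : ℕ) (ha : 2 ∣ a)
    (h3 : 3 ∣ q * t * (a + 2 * q * s)) :
    ∃ n : ℤ, ¬ (p : ℤ) ∣ n ∧ ¬ (p : ℤ) ∣ n + 2 * q * t ∧ ¬ (p : ℤ) ∣ -n + (a + 2 * q * s) ∧
      ¬ (p : ℤ) ∣ -n + (a + 2 * q * s - 2 * q * t) := by
  classical
  by_cases hp4 : 4 < p
  · -- at most four residues are bad
    by_contra hcon
    push Not at hcon
    have hz : ∀ n : Fin p, ∃ g : Fin 4, (g = 0 ∧ (p : ℤ) ∣ (n : ℕ)) ∨
        (g = 1 ∧ (p : ℤ) ∣ (n : ℕ) + 2 * q * t) ∨ (g = 2 ∧ (p : ℤ) ∣ -((n : ℕ) : ℤ) + (a + 2 * q * s)) ∨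
        (g = 3 ∧ (p : ℤ) ∣ -((n : ℕ) : ℤ) + (a + 2 * q * s - 2 * q * t)) := by
      intro n
      by_cases h0 : (p : ℤ) ∣ ((n : ℕ) : ℤ)
      · exact ⟨0, Or.inl ⟨rfl, h0⟩⟩
      by_cases h1 : (p : ℤ) ∣ ((n : ℕ) : ℤ) + 2 * q * t
      · exact ⟨1, Or.inr (Or.inl ⟨rfl, h1⟩)⟩
      by_cases h2 : (p : ℤ) ∣ -((n : ℕ) : ℤ) + (a + 2 * q * s)
      · exact ⟨2, Or.inr (Or.inr (Or.inl ⟨rfl, h2⟩))⟩
      exact ⟨3, Or.inr (Or.inr (Or.inr ⟨rfl, hcon _ h0 h1 h2⟩))⟩
    choose g hg using hz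
    have hinj : Function.Injective g := by
      intro n n' hnn
      have h1 := hg n
      have h2 := hg n'
      rw [← hnn] at h2
      have hd : (p : ℤ) ∣ ((n : ℕ) : ℤ) - ((n' : ℕ) : ℤ) := by
        rcases h1 with ⟨e, h1⟩ | ⟨e, h1⟩ | ⟨e, h1⟩ | ⟨e, h1⟩ <;>
        rcases h2 with ⟨e', h2⟩ | ⟨e', h2⟩ | ⟨e', h2⟩ | ⟨e', h2⟩ <;>
        first
        | (rw [e] at e'; exact absurd e' (by decide))
        | (have h3 := dvd_sub h1 h2; ring_nf at h3 ⊢; exact h3)
        | (have h3 := dvd_sub h2 h1; ring_nf at h3 ⊢; exact h3)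
      have hlt : |((n : ℕ) : ℤ) - ((n' : ℕ) : ℤ)| < p := by
        rw [abs_lt]
        have := n.2
        have := n'.2
        constructor <;> omega
      have h5 := Int.eq_zero_of_abs_lt_dvd hd hlt
      apply Fin.ext
      omega
    have h6 := Fintype.card_le_of_injective g hinj
    rw [Fintype.card_fin, Fintype.card_fin] at h6
    omega
  · have hp2 := hp.two_le
    have hp' : p = 2 ∨ p = 3 := by
      interval_cases p
      · exact Or.inl rfl
      · exact Or.inr rfl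
      · exact absurd hp (by norm_num)
    rcases hp' with rfl | rfl
    · refine ⟨1, ?_, ?_, ?_, ?_⟩ <;> obtain ⟨b, rfl⟩ := ha
      · norm_num
      · intro h
        have h1 : (2 : ℤ) ∣ 1 + 2 * q * t := by exact_mod_cast h
        have h2 : (2 : ℤ) ∣ 2 * q * t := ⟨q * t, by ring⟩
        have h3 := (Int.dvd_add_left h2).1 h1
        norm_num at h3
      · intro h
        have h1 : (2 : ℤ) ∣ -1 + (2 * b + 2 * q * s) := by exact_mod_cast h
        have h2 : (2 : ℤ) ∣ (2 * b + 2 * q * s) := ⟨b + q * s, by ring⟩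
        have h3 := (Int.dvd_add_left h2).1 h1
        norm_num at h3
      · intro h
        have h1 : (2 : ℤ) ∣ -1 + (2 * b + 2 * q * s - 2 * q * t) := by exact_mod_cast h
        have h2 : (2 : ℤ) ∣ (2 * b + 2 * q * s - 2 * q * t) := ⟨b + q * s - q * t, by ring⟩
        have h3 := (Int.dvd_add_left h2).1 h1
        norm_num at h3
    · -- modulo three
      have key : ∀ x y : ℤ, ((3 : ℤ) ∣ x ∨ (3 : ℤ) ∣ y) → ∃ n : ℤ, ¬ (3 : ℤ) ∣ n ∧ ¬ (3 : ℤ) ∣ n + 2 * x ∧
          ¬ (3 : ℤ) ∣ -n + y ∧ ¬ (3 : ℤ) ∣ -n + (y - 2 * x) := by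
        intro x y hxy
        by_cases hx : (3 : ℤ) ∣ x
        · by_cases hy : (3 : ℤ) ∣ y - 1
          · exact ⟨2, by omega, by omega, by omega, by omega⟩
          · exact ⟨1, by omega, by omega, by omega, by omega⟩
        · have hy : (3 : ℤ) ∣ y := by tauto
          exact ⟨2 * x, by omega, by omega, by omega, by omega⟩
      have hor : (3 : ℤ) ∣ ((q * t : ℕ) : ℤ) ∨ (3 : ℤ) ∣ ((a + 2 * q * s : ℕ) : ℤ) := by
        rcases (Nat.Prime.dvd_mul Nat.prime_three).1 h3 with h | h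
        · left; exact_mod_cast h
        · right; exact_mod_cast h
      obtain ⟨n, h1, h2, h3', h4⟩ := key _ _ hor
      refine ⟨n, h1, ?_, ?_, ?_⟩
      · have : n + 2 * (q : ℤ) * t = n + 2 * ((q * t : ℕ) : ℤ) := by push_cast; ring
        rw [this]; exact h2
      · have : -n + ((a : ℤ) + 2 * q * s) = -n + ((a + 2 * q * s : ℕ) : ℤ) := by push_cast; ring
        rw [this]; exact h3'
      · have : -n + ((a : ℤ) + 2 * q * s - 2 * q * t) =
            -n + (((a + 2 * q * s : ℕ) : ℤ) - 2 * ((q * t : ℕ) : ℤ)) := by push_cast; ring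
        rw [this]; exact h4

/-- the slopes -/
def sl : Fin 4 → ℤ := ![1, 1, -1, -1]

/-- the constant terms -/
def cs (K q a s t d : ℕ) : Fin 4 → ℕ → ℤ
  | 0, i => 2 * q * (d * i)
  | 1, i => 2 * q * (t + d * (K + i))
  | 2, i => a + 2 * q * (s + d * (K + i))
  | 3, i => a + 2 * q * (s - t + d * i)

theorem toNat_pos {x : ℤ} (h : x.toNat.Prime) : ((x.toNat : ℕ) : ℤ) = x := by
  apply Int.toNat_of_nonneg
  by_contra hcon
  rw [Int.toNat_of_nonpos (by omega)] at h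
  exact Nat.not_prime_zero h

/-- a lower bound for the number of differences -/
theorem diffs_ge {X h : ℕ} (F : Finset ℕ) (φ : ℕ → ℤ) (hφ : Set.InjOn φ F)
    (hX : ∀ n ∈ F, φ n ≤ X) (hp : ∀ n ∈ F, (φ n).toNat.Prime)
    (hp' : ∀ n ∈ F, (φ n + h).toNat.Prime) : F.card ≤ diffs X h := by
  classical
  unfold diffs
  have h1 : (F.image (fun n => (φ n).toNat)).card = F.card := by
    apply card_image_of_injOn
    intro n hn n' hn' h
    apply hφ hn hn'
    have h2 : ((φ n).toNat : ℤ) = (φ n').toNat := by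
      have : (φ n).toNat = (φ n').toNat := h
      rw [this]
    rwa [toNat_pos (hp n hn), toNat_pos (hp n' hn')] at h2
  rw [← h1, ← Set.ncard_coe_finset]
  apply Set.ncard_le_ncard _ ((Set.finite_Iic X).subset fun p hp => hp.1)
  intro x hx
  obtain ⟨n, hn, rfl⟩ := mem_image.1 (mem_coe.1 hx)
  refine ⟨?_, hp n hn, ?_⟩
  · have := hX n hn
    omega
  · have h3 := hp' n hn
    have h4 := toNat_pos (hp n hn)
    have h5 : (φ n + h).toNat = (φ n).toNat + h := by
      rw [← h4]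
      exact_mod_cast Int.toNat_natCast ((φ n).toNat + h)
    rwa [h5] at h3

/-- a lower bound for the number of sums -/
theorem sums_ge {X m : ℕ} (F : Finset ℕ) (φ ψ : ℕ → ℤ) (hφ : Set.InjOn φ F)
    (hX : ∀ n ∈ F, φ n ≤ X) (hp : ∀ n ∈ F, (φ n).toNat.Prime)
    (hp' : ∀ n ∈ F, (ψ n).toNat.Prime) (hm : ∀ n ∈ F, φ n + ψ n = m) : F.card ≤ sums X m := by
  classical
  unfold sums
  have h1 : (F.image (fun n => (φ n).toNat)).card = F.card := by
    apply card_image_of_injOn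
    intro n hn n' hn' h
    apply hφ hn hn'
    have h2 : ((φ n).toNat : ℤ) = (φ n').toNat := by
      have : (φ n).toNat = (φ n').toNat := h
      rw [this]
    rwa [toNat_pos (hp n hn), toNat_pos (hp n' hn')] at h2
  rw [← h1, ← Set.ncard_coe_finset]
  apply Set.ncard_le_ncard _ ((Set.finite_Iic X).subset fun p hp => hp.1)
  intro x hx
  obtain ⟨n, hn, rfl⟩ := mem_image.1 (mem_coe.1 hx)
  refine ⟨?_, hp n hn, (ψ n).toNat, hp' n hn, ?_⟩
  · have := hX n hn
    omega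
  · have h3 := hm n hn
    have h4 := toNat_pos (hp n hn)
    have h5 := toNat_pos (hp' n hn)
    omega

theorem sl_cases (g : Fin 4) : sl g = 1 ∨ sl g = -1 := by
  fin_cases g <;> simp [sl]

/-- admissibility -/
theorem adm (K q a s t d : ℕ) (ha : 2 ∣ a) (hd : ∀ p : ℕ, p.Prime → p ≤ 4 * K → p ∣ d)
    (h3 : 3 ∣ q * t * (a + 2 * q * s)) (p : ℕ) (hp : p.Prime) :
    ∃ n : ℤ, ∀ (g : Fin 4) (i : Fin K), ¬ (p : ℤ) ∣ sl g * n + cs K q a s t d g i := by
  classical
  by_cases hpK : p ≤ 4 * K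
  · obtain ⟨n, h0, h1, h2, h3'⟩ := four_classes p hp q a s t ha h3
    obtain ⟨e, he⟩ := hd p hp hpK
    refine ⟨n, fun g i => ?_⟩
    fin_cases g
    · show ¬ (p : ℤ) ∣ 1 * n + 2 * q * (d * (i : ℕ))
      intro h
      apply h0
      have h4 : (p : ℤ) ∣ 2 * q * (d * (i : ℕ)) := by
        rw [he]; push_cast; exact ⟨2 * q * (e * i), by ring⟩
      rw [one_mul] at h
      exact (Int.dvd_add_left h4).1 h
    · show ¬ (p : ℤ) ∣ 1 * n + 2 * q * (t + d * (K + (i : ℕ)))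
      intro h
      apply h1
      have h4 : (p : ℤ) ∣ 2 * q * (d * (K + (i : ℕ))) := by
        rw [he]; push_cast; exact ⟨2 * q * (e * (K + i)), by ring⟩
      have h5 : 1 * n + 2 * (q : ℤ) * (t + d * (K + (i : ℕ))) =
        n + 2 * q * t + 2 * q * (d * (K + (i : ℕ))) := by ring
      rw [h5] at h
      exact (Int.dvd_add_left h4).1 h
    · show ¬ (p : ℤ) ∣ -1 * n + (a + 2 * q * (s + d * (K + (i : ℕ))))
      intro h
      apply h2
      have h4 : (p : ℤ) ∣ 2 * q * (d * (K + (i : ℕ))) := by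
        rw [he]; push_cast; exact ⟨2 * q * (e * (K + i)), by ring⟩
      have h5 : -1 * n + ((a : ℤ) + 2 * q * (s + d * (K + (i : ℕ)))) =
        -n + (a + 2 * q * s) + 2 * q * (d * (K + (i : ℕ))) := by ring
      rw [h5] at h
      exact (Int.dvd_add_left h4).1 h
    · show ¬ (p : ℤ) ∣ -1 * n + (a + 2 * q * (s - t + d * (i : ℕ)))
      intro h
      apply h3'
      have h4 : (p : ℤ) ∣ 2 * q * (d * (i : ℕ)) := by
        rw [he]; push_cast; exact ⟨2 * q * (e * i), by ring⟩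
      have h5 : -1 * n + ((a : ℤ) + 2 * q * (s - t + d * (i : ℕ))) =
        -n + (a + 2 * q * s - 2 * q * t) + 2 * q * (d * (i : ℕ)) := by ring
      rw [h5] at h
      exact (Int.dvd_add_left h4).1 h
  · push Not at hpK
    by_contra hcon
    push Not at hcon
    have hz : ∀ n : Fin p, ∃ x : Fin 4 × Fin K,
        (p : ℤ) ∣ sl x.1 * ((n : ℕ) : ℤ) + cs K q a s t d x.1 x.2 := by
      intro n
      obtain ⟨g, i, h⟩ := hcon ((n : ℕ) : ℤ)
      exact ⟨(g, i), h⟩
    choose f hf using hz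
    have hinj : Function.Injective f := by
      intro n n' hnn
      have h1 := hf n
      have h2 := hf n'
      rw [← hnn] at h2
      have h4 := dvd_sub h1 h2
      have h5 : sl (f n).1 * ((n : ℕ) : ℤ) + cs K q a s t d (f n).1 (f n).2 -
        (sl (f n).1 * ((n' : ℕ) : ℤ) + cs K q a s t d (f n).1 (f n).2) =
        sl (f n).1 * (((n : ℕ) : ℤ) - ((n' : ℕ) : ℤ)) := by ring
      rw [h5] at h4
      have hd2 : (p : ℤ) ∣ ((n : ℕ) : ℤ) - ((n' : ℕ) : ℤ) := by
        rcases sl_cases (f n).1 with h | h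
        · rwa [h, one_mul] at h4
        · rw [h, neg_one_mul, dvd_neg] at h4
          exact h4
      have hlt : |((n : ℕ) : ℤ) - ((n' : ℕ) : ℤ)| < p := by
        rw [abs_lt]
        have := n.2
        have := n'.2
        constructor <;> omega
      have h6 := Int.eq_zero_of_abs_lt_dvd hd2 hlt
      apply Fin.ext
      omega
    have h7 := Fintype.card_le_of_injective f hinj
    rw [Fintype.card_prod, Fintype.card_fin, Fintype.card_fin, Fintype.card_fin] at h7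
    omega

/-- the forms are different -/
theorem inj (K q a s t d : ℕ) (hq : 1 ≤ q) (hd : 1 ≤ d) :
    Function.Injective (fun x : Fin 4 × Fin K => (sl x.1, cs K q a s t d x.1 x.2)) := by
  have hqz : (0 : ℤ) < 2 * q := by
    have : (1 : ℤ) ≤ q := by exact_mod_cast hq
    linarith
  have hdz : (1 : ℤ) ≤ d := by exact_mod_cast hd
  have ht : (0 : ℤ) ≤ t := Nat.cast_nonneg _
  rintro ⟨g, i⟩ ⟨g', j⟩ h
  obtain ⟨h1, h2⟩ := Prod.ext_iff.1 h
  simp only at h1 h2
  have hi : ((i : ℕ) : ℤ) < K := by exact_mod_cast i.2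
  have hj : ((j : ℕ) : ℤ) < K := by exact_mod_cast j.2
  have hi0 : (0 : ℤ) ≤ (i : ℕ) := Nat.cast_nonneg _
  have hj0 : (0 : ℤ) ≤ (j : ℕ) := Nat.cast_nonneg _
  have hlt : (d : ℤ) * (i : ℕ) < d * (K + (j : ℕ)) := by
    apply mul_lt_mul_of_pos_left _ (by linarith); linarith
  have hlt' : (d : ℤ) * (j : ℕ) < d * (K + (i : ℕ)) := by
    apply mul_lt_mul_of_pos_left _ (by linarith); linarith
  have hij : (d : ℤ) * (i : ℕ) = d * (j : ℕ) → i = j := by
    intro h
    have h3 := mul_left_cancel₀ (by linarith : (d : ℤ) ≠ 0) h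
    apply Fin.ext
    exact_mod_cast h3
  have hc : ∀ x y : ℤ, 2 * (q : ℤ) * x = 2 * q * y → x = y := fun x y h =>
    mul_left_cancel₀ hqz.ne' h
  have hKi : (d : ℤ) * (K + (i : ℕ)) = d * K + d * (i : ℕ) := by ring
  have hKj : (d : ℤ) * (K + (j : ℕ)) = d * K + d * (j : ℕ) := by ring
  have hn1 : (1 : ℤ) ≠ -1 := by norm_num
  fin_cases g <;> fin_cases g'
  · have h3 := hc (d * (i : ℕ)) (d * (j : ℕ)) h2
    rw [hij h3]
  · have h3 := hc (d * (i : ℕ)) (t + d * (K + (j : ℕ))) h2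
    exfalso; linarith
  · exact absurd h1 hn1
  · exact absurd h1 hn1
  · have h3 := hc (t + d * (K + (i : ℕ))) (d * (j : ℕ)) h2
    exfalso; linarith
  · have h3 := hc (t + d * (K + (i : ℕ))) (t + d * (K + (j : ℕ))) h2
    rw [hij (by linarith)]
  · exact absurd h1 hn1
  · exact absurd h1 hn1
  · exact absurd h1.symm hn1
  · exact absurd h1.symm hn1
  · have h3 := hc (s + d * (K + (i : ℕ))) (s + d * (K + (j : ℕ))) (by
      have h4 : (a : ℤ) + 2 * q * (s + d * (K + (i : ℕ))) = a + 2 * q * (s + d * (K + (j : ℕ))) := h2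
      linarith)
    rw [hij (by linarith)]
  · have h3 := hc (s + d * (K + (i : ℕ))) (s - t + d * (j : ℕ)) (by
      have h4 : (a : ℤ) + 2 * q * (s + d * (K + (i : ℕ))) = a + 2 * q * (s - t + d * (j : ℕ)) := h2
      linarith)
    exfalso; linarith
  · exact absurd h1.symm hn1
  · exact absurd h1.symm hn1
  · have h3 := hc (s - t + d * (i : ℕ)) (s + d * (K + (j : ℕ))) (by
      have h4 : (a : ℤ) + 2 * q * (s - t + d * (i : ℕ)) = a + 2 * q * (s + d * (K + (j : ℕ))) := h2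
      linarith)
    exfalso; linarith
  · have h3 := hc (s - t + d * (i : ℕ)) (s - t + d * (j : ℕ)) (by
      have h4 : (a : ℤ) + 2 * q * (s - t + d * (i : ℕ)) = a + 2 * q * (s - t + d * (j : ℕ)) := h2
      linarith)
    rw [hij (by linarith)]

/-- the constants of the forms, relative to the scale -/
theorem cs_bds (K q a s t d X : ℕ) (g : Fin 4) (i : Fin K)
    (hb : 1000 * (q * (s + t + 4 * K * d)) ≤ X) (ha1 : X ≤ 2 * a) (ha2 : a ≤ X) :
    0 ≤ cs K q a s t d g i ∧ 500 * cs K q a s t d g i ≤ 501 * X ∧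
      (sl g = -1 → 249 * (X : ℤ) ≤ 500 * cs K q a s t d g i) ∧
      (sl g = 1 → 500 * cs K q a s t d g i ≤ X) := by
  have hi : ((i : ℕ) : ℤ) ≤ K := by exact_mod_cast i.2.le
  have hi0 : (0 : ℤ) ≤ (i : ℕ) := Nat.cast_nonneg _
  have hb' : 1000 * ((q : ℤ) * (s + t + 4 * K * d)) ≤ X := by exact_mod_cast hb
  have ha1' : (X : ℤ) ≤ 2 * a := by exact_mod_cast ha1
  have ha2' : (a : ℤ) ≤ X := by exact_mod_cast ha2
  have h1 : (0 : ℤ) ≤ q * s := by positivity
  have h2 : (0 : ℤ) ≤ q * t := by positivity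
  have h3 : (0 : ℤ) ≤ q * (d * (i : ℕ)) := by positivity
  have h4 : (q : ℤ) * (d * (i : ℕ)) ≤ q * (K * d) := by
    have h5 : (d : ℤ) * (i : ℕ) ≤ K * d := by
      rw [mul_comm]; exact mul_le_mul_of_nonneg_right hi (Nat.cast_nonneg _)
    exact mul_le_mul_of_nonneg_left h5 (Nat.cast_nonneg _)
  have h6 : (0 : ℤ) ≤ q * (K * d) := by positivity
  have h7 : (q : ℤ) * (s + t + 4 * K * d) = q * s + q * t + 4 * (q * (K * d)) := by ring
  rw [h7] at hb'
  fin_cases g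
  · have e : cs K q a s t d 0 i = 2 * (q * (d * (i : ℕ))) := by simp only [cs]; ring
    refine ⟨?_, ?_, fun h => absurd h (by decide), fun _ => ?_⟩
    · show 0 ≤ cs K q a s t d 0 i
      rw [e]; linarith
    · show 500 * cs K q a s t d 0 i ≤ 501 * X
      rw [e]; linarith
    · show 500 * cs K q a s t d 0 i ≤ X
      rw [e]; linarith
  · have e : cs K q a s t d 1 i = 2 * (q * t + q * (K * d) + q * (d * (i : ℕ))) := by
      simp only [cs]; ring
    refine ⟨?_, ?_, fun h => absurd h (by decide), fun _ => ?_⟩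
    · show 0 ≤ cs K q a s t d 1 i
      rw [e]; linarith
    · show 500 * cs K q a s t d 1 i ≤ 501 * X
      rw [e]; linarith
    · show 500 * cs K q a s t d 1 i ≤ X
      rw [e]; linarith
  · have e : cs K q a s t d 2 i = a + 2 * (q * s + q * (K * d) + q * (d * (i : ℕ))) := by
      simp only [cs]; ring
    refine ⟨?_, ?_, fun _ => ?_, fun h => absurd h (by decide)⟩
    · show 0 ≤ cs K q a s t d 2 i
      rw [e]; linarith
    · show 500 * cs K q a s t d 2 i ≤ 501 * X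
      rw [e]; linarith
    · show 249 * (X : ℤ) ≤ 500 * cs K q a s t d 2 i
      rw [e]; linarith
  · have e : cs K q a s t d 3 i = a + 2 * (q * s - q * t + q * (d * (i : ℕ))) := by
      simp only [cs]; ring
    refine ⟨?_, ?_, fun _ => ?_, fun h => absurd h (by decide)⟩
    · show 0 ≤ cs K q a s t d 3 i
      rw [e]; linarith
    · show 500 * cs K q a s t d 3 i ≤ 501 * X
      rw [e]; linarith
    · show 249 * (X : ℤ) ≤ 500 * cs K q a s t d 3 i
      rw [e]; linarith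

/-- the uniform coloured theorem in a window -/
def EW : Prop := ∃ c : ℝ, 0 < c ∧ c < 1 ∧ ∀ c₁ c₂ : ℝ, 1 / 8 ≤ c₁ → c₁ < c₂ → c₂ ≤ 1 / 4 →
    ∀ T M : ℕ, 1 ≤ T → (4 - c) * M < T →
    ∃ K : ℕ, 1 ≤ K ∧ ∀ A : ℕ, ∀ η : ℝ, 0 < η → ∀ᶠ N : ℕ in atTop,
    ∀ a b : Fin T → Fin K → ℤ, (∀ g i, a g i ≠ 0) → (∀ g i, |a g i| ≤ A) →
      (∀ g i, 5 * |b g i| ≤ 6 * (N : ℤ)) →
      (∀ g i, ∀ y : ℝ, (N : ℝ) / 16 ≤ y → y ≤ N / 2 → (N : ℝ) / 30 ≤ a g i * y + b g i) →
      Function.Injective (fun x : Fin T × Fin K => (a x.1 x.2, b x.1 x.2)) →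
      (∀ p : ℕ, p.Prime → ∃ n : ℤ, ∀ g i, ¬ ((p : ℤ) ∣ a g i * n + b g i)) →
      ∃ (S : Finset (Fin T)) (σ : Fin T → Fin K), M + 1 ≤ S.card ∧
        (N : ℝ) ^ (1 - η) ≤ (((Icc 1 N).filter (fun n : ℕ => c₁ * N ≤ n ∧ (n : ℝ) ≤ c₂ * N ∧
          ∀ g ∈ S, (a g (σ g) * n + b g (σ g)).toNat.Prime)).card : ℝ)

/-- comparison of the scales -/
theorem scale (η : ℝ) (hη : 0 < η) : ∀ᶠ X : ℕ in atTop,
    (X : ℝ) ^ (1 - η) ≤ ((9 * X / 10 : ℕ) : ℝ) ^ (1 - min η 1 / 2) := by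
  have hm : 0 < min η 1 := lt_min hη one_pos
  have hm1 : min η 1 ≤ 1 := min_le_right _ _
  have hmη : min η 1 ≤ η := min_le_left _ _
  have h1 : ∀ᶠ X : ℕ in atTop, (2 : ℝ) ≤ (X : ℝ) ^ (η - min η 1 / 2) :=
    ((tendsto_rpow_atTop (by linarith)).comp tendsto_natCast_atTop_atTop).eventually_ge_atTop _
  filter_upwards [h1, eventually_ge_atTop 10] with X hX hX10
  have hX0 : (0 : ℝ) < X := by
    have : (10 : ℝ) ≤ X := by exact_mod_cast hX10
    linarith
  have h2 : (X : ℝ) / 2 ≤ ((9 * X / 10 : ℕ) : ℝ) := by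
    have h3 : X ≤ 2 * (9 * X / 10) := by omega
    have h4 : (X : ℝ) ≤ 2 * ((9 * X / 10 : ℕ) : ℝ) := by exact_mod_cast h3
    linarith
  have he : 0 ≤ 1 - min η 1 / 2 := by linarith
  have h5 : ((X : ℝ) / 2) ^ (1 - min η 1 / 2) ≤ ((9 * X / 10 : ℕ) : ℝ) ^ (1 - min η 1 / 2) :=
    Real.rpow_le_rpow (by positivity) h2 he
  refine le_trans ?_ h5
  rw [Real.div_rpow hX0.le (by norm_num), le_div_iff₀ (by positivity)]
  have h6 : (2 : ℝ) ^ (1 - min η 1 / 2) ≤ 2 := by
    calc (2 : ℝ) ^ (1 - min η 1 / 2) ≤ (2 : ℝ) ^ (1 : ℝ) :=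
          Real.rpow_le_rpow_of_exponent_le (by norm_num) (by linarith)
      _ = 2 := Real.rpow_one 2
  calc (X : ℝ) ^ (1 - η) * (2 : ℝ) ^ (1 - min η 1 / 2) ≤ (X : ℝ) ^ (1 - η) * 2 := by gcongr
    _ ≤ (X : ℝ) ^ (1 - η) * (X : ℝ) ^ (η - min η 1 / 2) := by gcongr
    _ = (X : ℝ) ^ (1 - min η 1 / 2) := by
        rw [← Real.rpow_add hX0]
        congr 1
        ring

open Classical in
/-- **The configuration of four classes.** -/
theorem conf (H : EW) : ∃ K : ℕ, 1 ≤ K ∧ ∀ η : ℝ, 0 < η → ∀ᶠ X : ℕ in atTop,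
    ∀ q a s t d : ℕ, 1 ≤ q → 1 ≤ d → (∀ p : ℕ, p.Prime → p ≤ 4 * K → p ∣ d) → 2 ∣ a →
      X ≤ 2 * a → a ≤ X → 1000 * (q * (s + t + 4 * K * d)) ≤ X → 3 ∣ q * t * (a + 2 * q * s) →
      ∃ α β : ℕ, α < 4 * K ∧ β < 4 * K ∧ ¬ Bad X η q a (s + d * α) (t + d * β) := by
  obtain ⟨c, hc, hc1, H⟩ := H
  obtain ⟨K, hK, H⟩ := H (1 / 8) (1 / 4) le_rfl (by norm_num) le_rfl 4 1 (by norm_num)
    (by push_cast; linarith)
  refine ⟨K, hK, fun η hη => ?_⟩
  have hm : 0 < min η 1 / 2 := by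
    have := lt_min hη one_pos
    linarith
  have hT : Tendsto (fun X : ℕ => 9 * X / 10) atTop atTop := by
    rw [tendsto_atTop]
    intro b
    filter_upwards [eventually_ge_atTop (2 * b + 10)] with X hX
    omega
  filter_upwards [hT.eventually (H 1 (min η 1 / 2) hm), scale η hη, eventually_ge_atTop 1000]
    with X hX hsc hX1000 q a s t d hq hd hdp ha ha1 ha2 hb h3
  obtain ⟨N, hN⟩ : ∃ N, N = 9 * X / 10 := ⟨_, rfl⟩
  rw [← hN] at hX hsc
  have hN1 : 10 * N ≤ 9 * X := by omega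
  have hN2 : 9 * X ≤ 10 * N + 9 := by omega
  have hN1r : 10 * (N : ℝ) ≤ 9 * X := by exact_mod_cast hN1
  have hN2r : 9 * (X : ℝ) ≤ 10 * N + 9 := by exact_mod_cast hN2
  have hXr : (1000 : ℝ) ≤ X := by exact_mod_cast hX1000
  have hbds := fun (g : Fin 4) (i : Fin K) => cs_bds K q a s t d X g i hb ha1 ha2
  obtain ⟨S, σ, hS, hcount⟩ := hX (fun g _ => sl g) (fun g i => cs K q a s t d g i)
    (fun g _ => by rcases sl_cases g with h | h <;> rw [h] <;> norm_num)
    (fun g _ => by rcases sl_cases g with h | h <;> rw [h] <;> norm_num)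
    (fun g i => by
      obtain ⟨h1, h2, -, -⟩ := hbds g i
      rw [abs_of_nonneg h1]
      have : (9 * (X : ℤ)) ≤ 10 * N + 9 := by exact_mod_cast hN2
      have : (1000 : ℤ) ≤ X := by exact_mod_cast hX1000
      linarith)
    (fun g i y hy1 hy2 => by
      obtain ⟨h1, h2, h4, -⟩ := hbds g i
      have h1r : (0 : ℝ) ≤ (cs K q a s t d g i : ℝ) := by exact_mod_cast h1
      rcases sl_cases g with h | h
      · rw [h]; push_cast; linarith
      · have h4r : 249 * (X : ℝ) ≤ 500 * (cs K q a s t d g i : ℝ) := by exact_mod_cast h4 h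
        rw [h]; push_cast; linarith)
    (inj K q a s t d hq hd) (adm K q a s t d ha hdp h3)
  obtain ⟨F, hF⟩ : ∃ F, F = (Icc 1 N).filter (fun n : ℕ => 1 / 8 * (N : ℝ) ≤ n ∧
    (n : ℝ) ≤ 1 / 4 * N ∧ ∀ g ∈ S, (sl g * n + cs K q a s t d g (σ g)).toNat.Prime) := ⟨_, rfl⟩
  rw [← hF] at hcount
  have hFc : (X : ℝ) ^ (1 - η) ≤ F.card := hsc.trans hcount
  by_contra hcon
  push Not at hcon
  -- the values
  have hP : ∀ g ∈ S, ∀ n ∈ F, (sl g * n + cs K q a s t d g (σ g)).toNat.Prime := by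
    intro g hg n hn
    rw [hF] at hn
    exact (mem_filter.1 hn).2.2.2 g hg
  have hle : ∀ g, ∀ n ∈ F, sl g * (n : ℤ) + cs K q a s t d g (σ g) ≤ X := by
    intro g n hn
    rw [hF] at hn
    obtain ⟨-, h1, h2, -⟩ := mem_filter.1 hn
    obtain ⟨-, h4, -, h5⟩ := hbds g (σ g)
    have h4r : 500 * (cs K q a s t d g (σ g) : ℝ) ≤ 501 * X := by exact_mod_cast h4
    have key : ((sl g * (n : ℤ) + cs K q a s t d g (σ g) : ℤ) : ℝ) ≤ X := by
      rcases sl_cases g with h | h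
      · have h5r : 500 * (cs K q a s t d g (σ g) : ℝ) ≤ X := by exact_mod_cast h5 h
        rw [h]; push_cast; linarith
      · rw [h]; push_cast; linarith
    exact_mod_cast key
  have hinj : ∀ g, Set.InjOn (fun n : ℕ => sl g * (n : ℤ) + cs K q a s t d g (σ g)) F := by
    intro g n _ n' _ h
    have h1 : sl g * (n : ℤ) + cs K q a s t d g (σ g) = sl g * (n' : ℤ) + cs K q a s t d g (σ g) := h
    rcases sl_cases g with e | e <;> rw [e] at h1 <;> omega
  have hdf : ∀ g g' : Fin 4, g ∈ S → g' ∈ S → ∀ β : ℕ, β < 4 * K →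
      (∀ n : ℕ, sl g * (n : ℤ) + cs K q a s t d g (σ g) + ((2 * q * (t + d * β) : ℕ) : ℤ) =
        sl g' * (n : ℤ) + cs K q a s t d g' (σ g')) → False := by
    intro g g' hg hg' β hβ h
    have h1 := diffs_ge (X := X) (h := 2 * q * (t + d * β)) F _ (hinj g) (hle g) (hP g hg)
      (fun n hn => by
        show (sl g * (n : ℤ) + cs K q a s t d g (σ g) + ((2 * q * (t + d * β) : ℕ) : ℤ)).toNat.Prime
        rw [h n]; exact hP g' hg' n hn)
    have h2 := (hcon 0 β (by omega) hβ).1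
    have h3 : (F.card : ℝ) ≤ diffs X (2 * q * (t + d * β)) := by exact_mod_cast h1
    linarith
  have hsm : ∀ g g' : Fin 4, g ∈ S → g' ∈ S → ∀ m : ℕ, (sums X m : ℝ) < (X : ℝ) ^ (1 - η) →
      (∀ n : ℕ, sl g * (n : ℤ) + cs K q a s t d g (σ g) +
        (sl g' * (n : ℤ) + cs K q a s t d g' (σ g')) = m) → False := by
    intro g g' hg hg' m hm h
    have h1 := sums_ge (X := X) (m := m) F _ _ (hinj g) (hle g) (hP g hg) (hP g' hg')
      (fun n _ => h n)
    have h3 : (F.card : ℝ) ≤ sums X m := by exact_mod_cast h1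
    linarith
  have hi : ∀ g, (σ g : ℕ) < K := fun g => (σ g).2
  obtain ⟨g, hg, g', hg', hgg⟩ : ∃ g ∈ S, ∃ g' ∈ S, g < g' := by
    obtain ⟨g, hg, g', hg', hne⟩ := Finset.one_lt_card.1 (by omega : 1 < S.card)
    rcases lt_or_gt_of_ne hne with h | h
    · exact ⟨g, hg, g', hg', h⟩
    · exact ⟨g', hg', g, hg, h⟩
  have hsub : ∀ α : ℕ, 2 * q * t ≤ a + 2 * q * (s + d * α) := by
    intro α
    have h1 : 1000 * (q * t) ≤ 1000 * (q * (s + t + 4 * K * d)) := by
      apply Nat.mul_le_mul_left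
      apply Nat.mul_le_mul_left
      omega
    have h2 : 2 * q * t = 2 * (q * t) := by ring
    have h3 : a ≤ a + 2 * q * (s + d * α) := Nat.le_add_right _ _
    omega
  have hK' := hK
  fin_cases g <;> fin_cases g' <;> first | exact absurd hgg (by decide) | skip
  · -- the classes 0 and 1
    refine hdf 0 1 hg hg' (K + σ 1 - σ 0) (by have := hi 0; have := hi 1; omega) fun n => ?_
    have h1 : (σ 0 : ℕ) ≤ K + σ 1 := by have := hi 0; omega
    simp only [sl, cs, Matrix.cons_val_zero, Matrix.cons_val_one]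
    push_cast [Nat.cast_sub h1]
    ring
  · -- 0 and 2
    refine hsm 0 2 hg hg' _ (hcon (K + σ 0 + σ 2) 0
      (by have := hi 0; have := hi 2; omega) (by omega)).2.1 fun n => ?_
    simp only [sl, cs, Matrix.cons_val_zero, Matrix.cons_val]
    push_cast
    ring
  · -- 0 and 3
    refine hsm 0 3 hg hg' _ (hcon (σ 0 + σ 3) 0
      (by have := hi 0; have := hi 3; omega) (by omega)).2.2.2 fun n => ?_
    have h1 : 2 * q * (t + d * 0) ≤ a + 2 * q * (s + d * (σ 0 + σ 3)) := by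
      rw [Nat.mul_zero, Nat.add_zero]; exact hsub _
    simp only [sl, cs, Matrix.cons_val_zero, Matrix.cons_val]
    push_cast [Nat.cast_sub h1]
    ring
  · -- 1 and 2
    refine hsm 1 2 hg hg' _ (hcon (K + σ 1 + σ 2) K
      (by have := hi 1; have := hi 2; omega) (by omega)).2.2.1 fun n => ?_
    simp only [sl, cs, Matrix.cons_val_one, Matrix.cons_val]
    push_cast
    ring
  · -- 1 and 3
    refine hsm 1 3 hg hg' _ (hcon (K + σ 1 + σ 3) 0
      (by have := hi 1; have := hi 3; omega) (by omega)).2.1 fun n => ?_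
    simp only [sl, cs, Matrix.cons_val_one, Matrix.cons_val]
    push_cast
    ring
  · -- 2 and 3
    refine hdf 3 2 hg' hg (K + σ 2 - σ 3) (by have := hi 2; have := hi 3; omega) fun n => ?_
    have h1 : (σ 3 : ℕ) ≤ K + σ 2 := by have := hi 3; omega
    simp only [sl, cs, Matrix.cons_val]
    push_cast [Nat.cast_sub h1]
    ring

end Q157.GD
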