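import Mathlib
import Pool.Agent.Q157.GD.NT
import Pool.Agent.Q157.GD.Grid

/-!
# Differences or sums of two primes: almost all pairs, and the alternative
-/

set_option autoImplicit false

namespace Q157.GD

open Finset Filter Topology

open Classical in
/-- **Almost all pairs.** For almost all pairs of `t` (in a window of multiples of `2 q`) and `m` (in a
window of an even residue class modulo `2 q`) with `3 ∣ m t` the number `t` is a difference or one of
`m`, `m + t`, `m - t` is a sum of two primes. -/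
theorem pairs (hEW : EW) (ε : ℝ) (hε : 0 < ε) : ∃ C : ℕ, 1 ≤ C ∧ ∀ η : ℝ, 0 < η → ∀ᶠ X : ℕ in atTop,
    ∀ q u L a H : ℕ, 1 ≤ q → C ≤ L → C ≤ H → 2 ∣ a → X ≤ 2 * a → a ≤ X →
      C * (q * (u + L + H)) ≤ X →
      (((range H ×ˢ Ioc u (u + L)).filter (fun x : ℕ × ℕ => 3 ∣ q * x.2 * (a + 2 * q * x.1) ∧
        Bad X η q a x.1 x.2)).card : ℝ) ≤ ε * (H * L) := by
  obtain ⟨K, hK, hconf⟩ := conf hEW
  obtain ⟨Q, hQ⟩ : ∃ Q : ℕ, Q = (4 * K).factorial := ⟨_, rfl⟩
  have hQ1 : 1 ≤ Q := by rw [hQ]; exact Nat.factorial_pos _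
  obtain ⟨C, hC, hgrid⟩ := grid (4 * K) Q (by omega) hQ1 ε hε
  refine ⟨C * (4 * K + 2) * 1000, by
    have h1 : 1 ≤ C * (4 * K + 2) := Nat.mul_pos hC (by omega)
    omega, fun η hη => ?_⟩
  filter_upwards [hconf η hη] with X hX q u L a H hq hL hH ha ha1 ha2 hCX
  by_contra hcon
  push Not at hcon
  obtain ⟨E, hE⟩ : ∃ E, E = (range H ×ˢ Ioc u (u + L)).filter (fun x : ℕ × ℕ =>
    3 ∣ q * x.2 * (a + 2 * q * x.1) ∧ Bad X η q a x.1 x.2) := ⟨_, rfl⟩
  rw [← hE] at hcon
  -- shift the second coordinate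
  obtain ⟨E', hE'⟩ : ∃ E', E' = E.image (fun x : ℕ × ℕ => (x.1, x.2 - (u + 1))) := ⟨_, rfl⟩
  have hEm : ∀ x ∈ E, x.1 < H ∧ u < x.2 ∧ x.2 ≤ u + L := by
    intro x hx
    rw [hE] at hx
    have h1 := mem_product.1 (mem_filter.1 hx).1
    exact ⟨mem_range.1 h1.1, (mem_Ioc.1 h1.2).1, (mem_Ioc.1 h1.2).2⟩
  have hc : E'.card = E.card := by
    rw [hE']
    apply card_image_of_injOn
    intro x hx y hy h
    have h1 := hEm x hx
    have h2 := hEm y hy
    have h3 := (Prod.ext_iff.1 h).1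
    have h4 : x.2 - (u + 1) = y.2 - (u + 1) := (Prod.ext_iff.1 h).2
    exact Prod.ext h3 (by omega)
  have hsub : E' ⊆ range H ×ˢ range L := by
    intro x hx
    rw [hE'] at hx
    obtain ⟨y, hy, rfl⟩ := mem_image.1 hx
    have := hEm y hy
    rw [mem_product, mem_range, mem_range]
    exact ⟨this.1, by show y.2 - (u + 1) < L; omega⟩
  have hCL : C ≤ L := by
    have h1 : C * 1 ≤ C * ((4 * K + 2) * 1000) := Nat.mul_le_mul_left _ (by omega)
    have h2 : C * (4 * K + 2) * 1000 = C * ((4 * K + 2) * 1000) := by ring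
    omega
  have hCH : C ≤ H := by
    have h1 : C * 1 ≤ C * ((4 * K + 2) * 1000) := Nat.mul_le_mul_left _ (by omega)
    have h2 : C * (4 * K + 2) * 1000 = C * ((4 * K + 2) * 1000) := by ring
    omega
  obtain ⟨s, τ, d, hd1, hdC, hQd, hg⟩ := hgrid H L hCH hCL E' hsub (by rw [hc]; exact hcon.le)
  have hback : ∀ i < 4 * K, ∀ j < 4 * K, (s + d * i, τ + (u + 1) + d * j) ∈ E := by
    intro i hi j hj
    have h1 := hg i hi j hj
    rw [hE'] at h1
    obtain ⟨y, hy, h2⟩ := mem_image.1 h1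
    have h3 := hEm y hy
    have h4 : y.1 = s + d * i := (Prod.ext_iff.1 h2).1
    have h5 : y.2 - (u + 1) = τ + d * j := (Prod.ext_iff.1 h2).2
    have h6 : y = (s + d * i, τ + (u + 1) + d * j) := Prod.ext h4 (by show y.2 = _; omega)
    rw [← h6]
    exact hy
  have h00 := hback 0 (by omega) 0 (by omega)
  rw [mul_zero, add_zero, add_zero] at h00
  have hb0 := hEm _ h00
  simp only at hb0
  have h300 : 3 ∣ q * (τ + (u + 1)) * (a + 2 * q * s) := by
    rw [hE] at h00
    exact (mem_filter.1 h00).2.1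
  obtain ⟨α, β, hα, hβ, hnb⟩ := hX q a s (τ + (u + 1)) d hq hd1
    (fun p hp hpK => by
      refine dvd_trans ?_ hQd
      rw [hQ]
      exact hp.dvd_factorial.2 hpK) ha ha1 ha2
    (by
      refine le_trans ?_ hCX
      have h1 : s + (τ + (u + 1)) + 4 * K * d ≤ (C * (4 * K + 2)) * (u + L + H) := by
        have h2 : 4 * K * d ≤ C * (4 * K) * 1 := by
          calc 4 * K * d ≤ 4 * K * C := Nat.mul_le_mul_left _ hdC
            _ = C * (4 * K) * 1 := by ring
        have h3 : C * (4 * K) * 1 ≤ C * (4 * K) * (u + L + H) := Nat.mul_le_mul_left _ (by omega)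
        have h4 : 1 * (u + L + H) ≤ C * (u + L + H) := Nat.mul_le_mul_right _ hC
        have h5 : C * (4 * K + 2) * (u + L + H) = C * (4 * K) * (u + L + H) +
          2 * (C * (u + L + H)) := by ring
        omega
      calc 1000 * (q * (s + (τ + (u + 1)) + 4 * K * d))
          ≤ 1000 * (q * ((C * (4 * K + 2)) * (u + L + H))) :=
            Nat.mul_le_mul_left _ (Nat.mul_le_mul_left _ h1)
        _ = C * (4 * K + 2) * 1000 * (q * (u + L + H)) := by ring)
    h300
  apply hnb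
  have h7 := hback α hα β hβ
  rw [hE] at h7
  exact (mem_filter.1 h7).2.2

end Q157.GD
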