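import Mathlib
import Pool.Agent.Q157.GD.Main

/-!
# The alternative: almost all differences, or one third of the sums
-/

set_option autoImplicit false

namespace Q157.GD

open Finset Filter Topology

/-- a residue class modulo three -/
theorem exists_class (a q : ℕ) (hq : ¬ 3 ∣ q) : ∃ r < 3, 3 ∣ a + 2 * q * r := by
  have h1 : q % 3 = 1 ∨ q % 3 = 2 := by omega
  have h2 : a % 3 = 0 ∨ a % 3 = 1 ∨ a % 3 = 2 := by omega
  rcases h1 with h1 | h1 <;> rcases h2 with h2 | h2 | h2
  · exact ⟨0, by norm_num, by omega⟩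
  · exact ⟨1, by norm_num, by omega⟩
  · exact ⟨2, by norm_num, by omega⟩
  · exact ⟨0, by norm_num, by omega⟩
  · exact ⟨2, by norm_num, by omega⟩
  · exact ⟨1, by norm_num, by omega⟩

theorem class_card (a q H : ℕ) (hq : ¬ 3 ∣ q) :
    H / 3 ≤ ((range H).filter (fun s => 3 ∣ a + 2 * q * s)).card := by
  classical
  obtain ⟨r, hr, hd⟩ := exists_class a q hq
  rw [← card_range (H / 3)]
  apply card_le_card_of_injOn (fun i => 3 * i + r)
  · intro i hi
    have hi' := mem_range.1 (mem_coe.1 hi)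
    rw [mem_coe, mem_filter, mem_range]
    refine ⟨by show 3 * i + r < H; omega, ?_⟩
    show 3 ∣ a + 2 * q * (3 * i + r)
    have : a + 2 * q * (3 * i + r) = a + 2 * q * r + 3 * (2 * q * i) := by ring
    rw [this]
    exact dvd_add hd (dvd_mul_right _ _)
  · intro i _ j _ h
    have : 3 * i + r = 3 * j + r := h
    omega

open Classical in
/-- the number of the bad `s` for one `k` -/
theorem one_k (P : ℕ → Prop) (q a H k : ℕ) (hak : 2 * q * k ≤ a) :
    (3 ∣ q * k → (H : ℝ) - 3 * ((range H).filter (fun s => P (a + 2 * q * s))).card - 2 * k ≤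
      ((range H).filter (fun s => 3 ∣ q * k * (a + 2 * q * s) ∧ ¬ P (a + 2 * q * s) ∧
        ¬ P (a + 2 * q * s + 2 * q * k) ∧ ¬ P (a + 2 * q * s - 2 * q * k))).card) ∧
    (¬ 3 ∣ q * k → ((H / 3 : ℕ) : ℝ) - ((range H).filter (fun s => P (a + 2 * q * s))).card - 2 * k ≤
      ((range H).filter (fun s => 3 ∣ q * k * (a + 2 * q * s) ∧ ¬ P (a + 2 * q * s) ∧
        ¬ P (a + 2 * q * s + 2 * q * k) ∧ ¬ P (a + 2 * q * s - 2 * q * k))).card) := by
  obtain ⟨A, hA⟩ : ∃ A, A = (range H).filter (fun s => 3 ∣ q * k * (a + 2 * q * s) ∧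
    ¬ P (a + 2 * q * s) ∧ ¬ P (a + 2 * q * s + 2 * q * k) ∧ ¬ P (a + 2 * q * s - 2 * q * k)) :=
    ⟨_, rfl⟩
  rw [← hA]
  obtain ⟨G, hG⟩ : ∃ G, G = (range H).filter (fun s => P (a + 2 * q * s)) := ⟨_, rfl⟩
  rw [← hG]
  -- general bounds for the shifted sets, with a condition `D`
  have up : ∀ D : ℕ → Prop, ((range H).filter (fun s => D s ∧ P (a + 2 * q * s + 2 * q * k))).card ≤
      (G.filter (fun s => k ≤ s ∧ D (s - k))).card + k := by
    intro D
    have h1 : ((range H).filter (fun s => D s ∧ P (a + 2 * q * s + 2 * q * k))).card =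
        (((range H).filter (fun s => D s ∧ P (a + 2 * q * s + 2 * q * k))).image
          (fun s => s + k)).card := by
      rw [card_image_of_injective]
      intro x y h
      have : x + k = y + k := h
      omega
    rw [h1]
    have h2 : ((range H).filter (fun s => D s ∧ P (a + 2 * q * s + 2 * q * k))).image
        (fun s => s + k) ⊆ (G.filter (fun s => k ≤ s ∧ D (s - k))) ∪ Ico H (H + k) := by
      intro x hx
      obtain ⟨s, hs, rfl⟩ := mem_image.1 hx
      obtain ⟨h3, h4, h5⟩ := mem_filter.1 hs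
      have h3' := mem_range.1 h3
      rw [mem_union]
      by_cases h6 : s + k < H
      · left
        rw [mem_filter, hG, mem_filter, mem_range]
        refine ⟨⟨h6, ?_⟩, by omega, ?_⟩
        · have : a + 2 * q * (s + k) = a + 2 * q * s + 2 * q * k := by ring
          rw [this]; exact h5
        · have : s + k - k = s := by omega
          rw [this]; exact h4
      · right
        rw [mem_Ico]
        constructor <;> omega
    refine (card_le_card h2).trans ((card_union_le _ _).trans ?_)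
    rw [Nat.card_Ico]
    omega
  have dn : ∀ D : ℕ → Prop, ((range H).filter (fun s => D s ∧ P (a + 2 * q * s - 2 * q * k))).card ≤
      (G.filter (fun s => D (s + k))).card + k := by
    intro D
    have h2 : (range H).filter (fun s => D s ∧ P (a + 2 * q * s - 2 * q * k)) ⊆
        ((G.filter (fun s => D (s + k))).image (fun s => s + k)) ∪ range k := by
      intro s hs
      obtain ⟨h3, h4, h5⟩ := mem_filter.1 hs
      have h3' := mem_range.1 h3
      rw [mem_union]
      by_cases h6 : k ≤ s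
      · left
        rw [mem_image]
        refine ⟨s - k, ?_, by omega⟩
        rw [mem_filter, hG, mem_filter, mem_range]
        have h7 : s - k + k = s := by omega
        refine ⟨⟨by omega, ?_⟩, ?_⟩
        · have h8 : a + 2 * q * (s - k) = a + 2 * q * s - 2 * q * k := by
            have h9 : 2 * q * (s - k) + 2 * q * k = 2 * q * s := by
              rw [← Nat.mul_add, h7]
            omega
          rw [h8]; exact h5
        · rw [h7]; exact h4
      · right
        rw [mem_range]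
        omega
    refine (card_le_card h2).trans ((card_union_le _ _).trans ?_)
    rw [card_range]
    exact Nat.add_le_add_right card_image_le _
  constructor
  · intro h3
    obtain ⟨D, hD⟩ : ∃ D : ℕ → Prop, D = fun _ => True := ⟨_, rfl⟩
    have hDs : ∀ s, D s := fun s => by rw [hD]; trivial
    have h1 : range H ⊆ A ∪ (G ∪ ((range H).filter (fun s => D s ∧ P (a + 2 * q * s + 2 * q * k)) ∪
        (range H).filter (fun s => D s ∧ P (a + 2 * q * s - 2 * q * k)))) := by
      intro s hs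
      simp only [mem_union]
      by_cases h4 : P (a + 2 * q * s)
      · right; left; rw [hG, mem_filter]; exact ⟨hs, h4⟩
      by_cases h5 : P (a + 2 * q * s + 2 * q * k)
      · right; right; left; rw [mem_filter]; exact ⟨hs, hDs s, h5⟩
      by_cases h6 : P (a + 2 * q * s - 2 * q * k)
      · right; right; right; rw [mem_filter]; exact ⟨hs, hDs s, h6⟩
      left
      rw [hA, mem_filter]
      exact ⟨hs, Dvd.dvd.mul_right h3 _, h4, h5, h6⟩
    have h2 := (card_le_card h1).trans ((card_union_le _ _).trans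
      (Nat.add_le_add_left ((card_union_le _ _).trans (Nat.add_le_add_left (card_union_le _ _) _)) _))
    rw [card_range] at h2
    have h4 := up D
    have h5 := dn D
    have h6 := card_filter_le G (fun s => k ≤ s ∧ D (s - k))
    have h7 := card_filter_le G (fun s => D (s + k))
    have h8 : H ≤ A.card + 3 * G.card + 2 * k := by
      omega
    have h9 : (H : ℝ) ≤ A.card + 3 * G.card + 2 * k := by exact_mod_cast h8
    linarith
  · intro h3
    have h3q : ¬ 3 ∣ q := fun h => h3 (Dvd.dvd.mul_right h _)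
    obtain ⟨D, hD⟩ : ∃ D : ℕ → Prop, D = fun s => 3 ∣ a + 2 * q * s := ⟨_, rfl⟩
    have h1 : (range H).filter D ⊆ A ∪ ((G.filter D) ∪
        ((range H).filter (fun s => D s ∧ P (a + 2 * q * s + 2 * q * k)) ∪
        (range H).filter (fun s => D s ∧ P (a + 2 * q * s - 2 * q * k)))) := by
      intro s hs
      obtain ⟨hs, hDs⟩ := mem_filter.1 hs
      simp only [mem_union]
      by_cases h4 : P (a + 2 * q * s)
      · right; left; rw [mem_filter, hG, mem_filter]; exact ⟨⟨hs, h4⟩, hDs⟩
      by_cases h5 : P (a + 2 * q * s + 2 * q * k)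
      · right; right; left; rw [mem_filter]; exact ⟨hs, hDs, h5⟩
      by_cases h6 : P (a + 2 * q * s - 2 * q * k)
      · right; right; right; rw [mem_filter]; exact ⟨hs, hDs, h6⟩
      left
      rw [hA, mem_filter]
      refine ⟨hs, Dvd.dvd.mul_left ?_ _, h4, h5, h6⟩
      rw [hD] at hDs
      exact hDs
    have h2 := (card_le_card h1).trans ((card_union_le _ _).trans
      (Nat.add_le_add_left ((card_union_le _ _).trans (Nat.add_le_add_left (card_union_le _ _) _)) _))
    have h4 := up D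
    have h5 := dn D
    have hcl : H / 3 ≤ ((range H).filter D).card := by
      rw [hD]
      refine (class_card a q H h3q).trans (le_of_eq ?_)
      congr
    -- the three classes are disjoint
    have hdis : (G.filter D).card + (G.filter (fun s => k ≤ s ∧ D (s - k))).card +
        (G.filter (fun s => D (s + k))).card ≤ G.card := by
      have e1 : ∀ s, k ≤ s → 2 * q * s = 2 * q * (s - k) + 2 * (q * k) := by
        intro s hs
        have : s = s - k + k := by omega
        calc 2 * q * s = 2 * q * (s - k + k) := by rw [← this]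
          _ = _ := by ring
      have e2 : ∀ s, 2 * q * (s + k) = 2 * q * s + 2 * (q * k) := fun s => by ring
      have d1 : Disjoint (G.filter D) (G.filter (fun s => k ≤ s ∧ D (s - k))) := by
        rw [disjoint_filter]
        intro s _ hs1 hs2
        rw [hD] at hs1 hs2
        obtain ⟨hk, hs2⟩ := hs2
        have := e1 s hk
        have hs1' : 3 ∣ a + 2 * q * s := hs1
        have hs2' : 3 ∣ a + 2 * q * (s - k) := hs2
        omega
      have d2 : Disjoint (G.filter D ∪ G.filter (fun s => k ≤ s ∧ D (s - k)))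
          (G.filter (fun s => D (s + k))) := by
        rw [disjoint_union_left, disjoint_filter, disjoint_filter]
        constructor
        · intro s _ hs1 hs2
          rw [hD] at hs1 hs2
          have := e2 s
          have hs1' : 3 ∣ a + 2 * q * s := hs1
          have hs2' : 3 ∣ a + 2 * q * (s + k) := hs2
          omega
        · intro s _ hs1 hs2
          rw [hD] at hs1 hs2
          obtain ⟨hk, hs1⟩ := hs1
          have := e1 s hk
          have := e2 s
          have hs1' : 3 ∣ a + 2 * q * (s - k) := hs1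
          have hs2' : 3 ∣ a + 2 * q * (s + k) := hs2
          omega
      rw [← card_union_of_disjoint d1, ← card_union_of_disjoint d2]
      apply card_le_card
      intro s hs
      simp only [mem_union, mem_filter] at hs
      tauto
    have h8 : H / 3 ≤ A.card + G.card + 2 * k := by omega
    have h9 : ((H / 3 : ℕ) : ℝ) ≤ A.card + G.card + 2 * k := by exact_mod_cast h8
    linarith

open Classical in
/-- **The alternative.** -/
theorem alt (hEW : EW) (ε : ℝ) (hε : 0 < ε) : ∃ C : ℕ, ∀ η : ℝ, 0 < η → ∀ᶠ X : ℕ in atTop,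
    ∀ q u L : ℕ, 1 ≤ q → C ≤ L → C * (q * (u + L)) ≤ X →
      (((Ioc u (u + L)).filter (fun k : ℕ => (diffs X (2 * q * k) : ℝ) < (X : ℝ) ^ (1 - η))).card : ℝ) ≤
        ε * L ∨
      ∀ a H : ℕ, X ≤ 2 * a → a ≤ X → Even a → C * (u + L) ≤ H → C * (q * H) ≤ X →
        (1 / 3 - ε) * (H : ℝ) ≤ (((range H).filter (fun s : ℕ =>
          (X : ℝ) ^ (1 - η) ≤ sums X (a + 2 * q * s))).card : ℝ) := by
  obtain ⟨C₀, hC₀, hp⟩ := pairs hEW (ε ^ 2 / 4) (by positivity)
  obtain ⟨C₁, hC₁⟩ := exists_nat_ge (8 / ε)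
  refine ⟨2 * C₀ + C₁ + 4, fun η hη => ?_⟩
  filter_upwards [hp η hη] with X hX q u L hq hL hCX
  obtain ⟨C, hC⟩ : ∃ C, C = 2 * C₀ + C₁ + 4 := ⟨_, rfl⟩
  rw [← hC] at hL hCX ⊢
  by_contra hcon
  push Not at hcon
  obtain ⟨hT, a, H, ha1, ha2, ha, hH, hCH, hG⟩ := hcon
  obtain ⟨T, hTd⟩ : ∃ T, T = (Ioc u (u + L)).filter (fun k : ℕ =>
    (diffs X (2 * q * k) : ℝ) < (X : ℝ) ^ (1 - η)) := ⟨_, rfl⟩
  rw [← hTd] at hT
  obtain ⟨G, hGd⟩ : ∃ G, G = (range H).filter (fun s : ℕ =>
          (X : ℝ) ^ (1 - η) ≤ sums X (a + 2 * q * s)) := ⟨_, rfl⟩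
  rw [← hGd] at hG
  have hCr : 8 / ε ≤ C := by
    refine hC₁.trans ?_
    rw [hC]
    push_cast
    have : (0 : ℝ) ≤ C₀ := Nat.cast_nonneg _
    linarith
  have hLr : (0 : ℝ) < L := by
    have : 0 < L := by omega
    exact_mod_cast this
  have huL : C * 1 ≤ C * (u + L) := Nat.mul_le_mul_left _ (by omega)
  have hHC : C ≤ H := by omega
  have hHr : (C : ℝ) ≤ H := by exact_mod_cast hHC
  have hHr2 : (C : ℝ) * (u + L) ≤ H := by exact_mod_cast hH
  have hεC : 8 ≤ ε * C := by
    rw [div_le_iff₀ hε] at hCr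
    linarith
  have hεH : 8 ≤ ε * H := hεC.trans (mul_le_mul_of_nonneg_left hHr hε.le)
  have hHpos : (0 : ℝ) < H := by
    have h1 : 0 < ε * (H : ℝ) := by linarith
    exact (pos_iff_pos_of_mul_pos h1).1 hε
  have hk : ∀ k ∈ T, 8 * (k : ℝ) ≤ ε * H := by
    intro k hk
    rw [hTd] at hk
    have h1 := (mem_Ioc.1 (mem_filter.1 hk).1).2
    have h2 : (k : ℝ) ≤ u + L := by exact_mod_cast h1
    calc 8 * (k : ℝ) ≤ (ε * C) * k := by
          apply mul_le_mul_of_nonneg_right hεC (Nat.cast_nonneg _)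
      _ ≤ (ε * C) * (u + L) := by
          apply mul_le_mul_of_nonneg_left h2 (by linarith)
      _ = ε * (C * (u + L)) := by ring
      _ ≤ ε * H := mul_le_mul_of_nonneg_left hHr2 hε.le
  -- the bad pairs
  obtain ⟨A, hA⟩ : ∃ A : ℕ → Finset ℕ, A = fun k => (range H).filter (fun s =>
    3 ∣ q * k * (a + 2 * q * s) ∧ ¬ ((X : ℝ) ^ (1 - η) ≤ sums X (a + 2 * q * s)) ∧
      ¬ ((X : ℝ) ^ (1 - η) ≤ sums X (a + 2 * q * s + 2 * q * k)) ∧
      ¬ ((X : ℝ) ^ (1 - η) ≤ sums X (a + 2 * q * s - 2 * q * k))) := ⟨_, rfl⟩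
  have hAk : ∀ k ∈ T, ε * H / 2 ≤ ((A k).card : ℝ) := by
    intro k hkT
    have h8 := hk k hkT
    have hkle : k ≤ u + L := by
      rw [hTd] at hkT
      exact (mem_Ioc.1 (mem_filter.1 hkT).1).2
    have hak : 2 * q * k ≤ a := by
      have h1 : C * (q * k) ≤ X := by
        refine le_trans ?_ hCX
        exact Nat.mul_le_mul_left _ (Nat.mul_le_mul_left _ hkle)
      have h2 : 4 * (q * k) ≤ C * (q * k) := Nat.mul_le_mul_right _ (by omega)
      have h3 : 2 * q * k = 2 * (q * k) := by ring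
      omega
    obtain ⟨h1, h2⟩ := one_k (fun m => (X : ℝ) ^ (1 - η) ≤ sums X m) q a H k hak
    rw [← hGd] at h1 h2
    have hA' : A k = (range H).filter (fun s =>
      3 ∣ q * k * (a + 2 * q * s) ∧ ¬ ((X : ℝ) ^ (1 - η) ≤ sums X (a + 2 * q * s)) ∧
      ¬ ((X : ℝ) ^ (1 - η) ≤ sums X (a + 2 * q * s + 2 * q * k)) ∧
      ¬ ((X : ℝ) ^ (1 - η) ≤ sums X (a + 2 * q * s - 2 * q * k))) := by rw [hA]
    rw [hA']
    by_cases h3 : 3 ∣ q * k
    · refine le_trans ?_ (h1 h3)
      nlinarith
    · refine le_trans ?_ (h2 h3)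
      have h4 : (H : ℝ) / 3 - 1 ≤ ((H / 3 : ℕ) : ℝ) := by
        have h5 : H ≤ 3 * (H / 3) + 2 := by omega
        have h6 : (H : ℝ) ≤ 3 * ((H / 3 : ℕ) : ℝ) + 2 := by exact_mod_cast h5
        linarith
      nlinarith
  have hE := hX q u L a H hq (by omega) (by omega) ha.two_dvd ha1 ha2 (by
    have h1 : u + L + H ≤ 2 * H := by
      have : 1 * (u + L) ≤ C * (u + L) := Nat.mul_le_mul_right _ (by omega)
      omega
    calc C₀ * (q * (u + L + H)) ≤ C₀ * (q * (2 * H)) :=
          Nat.mul_le_mul_left _ (Nat.mul_le_mul_left _ h1)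
      _ = 2 * C₀ * (q * H) := by ring
      _ ≤ C * (q * H) := Nat.mul_le_mul_right _ (by omega)
      _ ≤ X := hCH)
  obtain ⟨E, hEd⟩ : ∃ E, E = (range H ×ˢ Ioc u (u + L)).filter (fun x : ℕ × ℕ =>
    3 ∣ q * x.2 * (a + 2 * q * x.1) ∧ Bad X η q a x.1 x.2) := ⟨_, rfl⟩
  rw [← hEd] at hE
  have hsum : ∑ k ∈ T, (A k).card ≤ E.card := by
    rw [← card_sigma]
    apply card_le_card_of_injOn (fun x : (_ : ℕ) × ℕ => (x.2, x.1))
    · rintro ⟨k, s⟩ hx
      obtain ⟨hk', hs⟩ := mem_sigma.1 (mem_coe.1 hx)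
      rw [hTd] at hk'
      obtain ⟨hk1, hk2⟩ := mem_filter.1 hk'
      rw [hA] at hs
      obtain ⟨hs1, hs2, hs3, hs4, hs5⟩ := mem_filter.1 hs
      rw [mem_coe, hEd, mem_filter, mem_product]
      exact ⟨⟨hs1, hk1⟩, hs2, hk2, not_le.1 hs3, not_le.1 hs4, not_le.1 hs5⟩
    · rintro ⟨k, s⟩ _ ⟨k', s'⟩ _ h
      have h1 : s = s' := (Prod.ext_iff.1 h).1
      have h2 : k = k' := (Prod.ext_iff.1 h).2
      rw [h1, h2]
  have hsum2 : (T.card : ℝ) * (ε * H / 2) ≤ (E.card : ℝ) := by
    calc (T.card : ℝ) * (ε * H / 2) = ∑ _k ∈ T, (ε * H / 2) := by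
          rw [sum_const, nsmul_eq_mul]
      _ ≤ ∑ k ∈ T, ((A k).card : ℝ) := sum_le_sum hAk
      _ = ((∑ k ∈ T, (A k).card : ℕ) : ℝ) := by push_cast; rfl
      _ ≤ E.card := by exact_mod_cast hsum
  have h9 : ε * L * (ε * H / 2) < (T.card : ℝ) * (ε * H / 2) := by
    apply mul_lt_mul_of_pos_right hT (by positivity)
  have h10 : ε * L * (ε * H / 2) ≤ ε ^ 2 / 4 * (H * L) := by linarith
  have h11 : 0 < ε ^ 2 * (H * L) := by positivity
  nlinarith

end Q157.GD
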